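import Mathlib

/-!
Faces of finite pointed vector configurations: the moving lemma, facets, lower bounds for the
number of faces, the two-sided lemma and small spanning sets of non-simplicial faces.
-/

set_option autoImplicit false

namespace Pool.Agent.Lib.MP_257afc_co.LD

open Finset Module

variable {ι E : Type*} [AddCommGroup E] [Module ℝ E]

/-- The span of a subfamily. -/
def sp (a : ι → E) (T : Finset ι) : Submodule ℝ E := Submodule.span ℝ (a '' (T : Set ι))

/-- The rank of a subfamily. -/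
noncomputable def rk (a : ι → E) (T : Finset ι) : ℕ := finrank ℝ (sp a T)

/-- `T` is a face of the configuration `X`. -/
def IsF (a : ι → E) (X T : Finset ι) : Prop :=
  ∃ l : E →ₗ[ℝ] ℝ, (∀ i ∈ X, 0 ≤ l (a i)) ∧ ∀ i, i ∈ T ↔ i ∈ X ∧ l (a i) = 0

theorem mem_sp {a : ι → E} {T : Finset ι} {i : ι} (hi : i ∈ T) : a i ∈ sp a T :=
  Submodule.subset_span ⟨i, by exact_mod_cast hi, rfl⟩

theorem sp_le {a : ι → E} {T : Finset ι} {p : Submodule ℝ E} (h : ∀ i ∈ T, a i ∈ p) :
    sp a T ≤ p := by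
  unfold sp
  rw [Submodule.span_le]
  rintro _ ⟨i, hi, rfl⟩
  exact h i (by exact_mod_cast hi)

theorem sp_mono {a : ι → E} {S T : Finset ι} (h : S ⊆ T) : sp a S ≤ sp a T :=
  sp_le fun _ hi => mem_sp (h hi)

theorem zero_on_sp {a : ι → E} {T : Finset ι} {l : E →ₗ[ℝ] ℝ} (h : ∀ i ∈ T, l (a i) = 0) {x : E}
    (hx : x ∈ sp a T) : l x = 0 := by
  have h1 : sp a T ≤ LinearMap.ker l := sp_le fun i hi => h i hi
  exact h1 hx

theorem IsF.sub {a : ι → E} {X T : Finset ι} (h : IsF a X T) : T ⊆ X := by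
  obtain ⟨l, -, h2⟩ := h
  exact fun i hi => ((h2 i).1 hi).1

theorem IsF.refl (a : ι → E) (X : Finset ι) : IsF a X X :=
  ⟨0, fun _ _ => le_rfl, fun i => by simp⟩

/-- A vector of the configuration outside of a face is outside of its span. -/
theorem IsF.notMem {a : ι → E} {X T : Finset ι} (h : IsF a X T) {i : ι} (hi : i ∈ X)
    (hiT : i ∉ T) : a i ∉ sp a T := by
  obtain ⟨l, -, h2⟩ := h
  intro hs
  exact hiT ((h2 i).2 ⟨hi, zero_on_sp (fun j hj => ((h2 j).1 hj).2) hs⟩)

theorem IsF.restrict {a : ι → E} {X F A : Finset ι} (hA : IsF a X A) (hF : F ⊆ X)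
    (hAF : A ⊆ F) : IsF a F A := by
  obtain ⟨l, h1, h2⟩ := hA
  refine ⟨l, fun i hi => h1 i (hF hi), fun i => ⟨fun hi => ⟨hAF hi, ((h2 i).1 hi).2⟩, fun hi => ?_⟩⟩
  exact (h2 i).2 ⟨hF hi.1, hi.2⟩

/-- A bound for finitely many quotients. -/
theorem exists_big (X : Finset ι) (f g : ι → ℝ) (h : ∀ i ∈ X, 0 < f i) :
    ∃ c : ℝ, 0 < c ∧ ∀ i ∈ X, g i < c * f i := by
  classical
  refine ⟨(∑ i ∈ X, |g i| / f i) + 1, ?_, fun i hi => ?_⟩
  · have : 0 ≤ ∑ i ∈ X, |g i| / f i :=
      Finset.sum_nonneg fun i hi => div_nonneg (abs_nonneg _) (h i hi).le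
    linarith
  · have h1 : |g i| / f i ≤ ∑ j ∈ X, |g j| / f j :=
      Finset.single_le_sum (f := fun j => |g j| / f j)
        (fun j hj => div_nonneg (abs_nonneg _) (h j hj).le) hi
    have h2 := h i hi
    have h3 : |g i| = |g i| / f i * f i := by field_simp
    have h4 : |g i| / f i * f i ≤ (∑ j ∈ X, |g j| / f j) * f i :=
      mul_le_mul_of_nonneg_right h1 h2.le
    have h5 := le_abs_self (g i)
    nlinarith

theorem IsF.trans {a : ι → E} {X F T : Finset ι} (hF : IsF a X F) (hT : IsF a F T) :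
    IsF a X T := by
  classical
  have hFX := hF.sub
  obtain ⟨l, h1, h2⟩ := hF
  obtain ⟨m, h3, h4⟩ := hT
  have hpos : ∀ i ∈ X \ F, 0 < l (a i) := by
    intro i hi
    rw [Finset.mem_sdiff] at hi
    refine lt_of_le_of_ne (h1 i hi.1) fun h => hi.2 ((h2 i).2 ⟨hi.1, h.symm⟩)
  obtain ⟨c, hc, hc2⟩ := exists_big (X \ F) (fun i => l (a i)) (fun i => - m (a i)) hpos
  have key : ∀ i ∈ X, i ∉ F → 0 < c * l (a i) + m (a i) := by
    intro i hi hiF
    have := hc2 i (Finset.mem_sdiff.2 ⟨hi, hiF⟩)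
    linarith
  refine ⟨c • l + m, fun i hi => ?_, fun i => ?_⟩
  · simp only [LinearMap.add_apply, LinearMap.smul_apply, smul_eq_mul]
    by_cases hiF : i ∈ F
    · rw [((h2 i).1 hiF).2, mul_zero, zero_add]
      exact h3 i hiF
    · exact (key i hi hiF).le
  · simp only [LinearMap.add_apply, LinearMap.smul_apply, smul_eq_mul]
    constructor
    · intro hi
      have hiF := ((h4 i).1 hi).1
      exact ⟨hFX hiF, by rw [((h2 i).1 hiF).2, mul_zero, zero_add]; exact ((h4 i).1 hi).2⟩
    · rintro ⟨hi, h0⟩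
      by_cases hiF : i ∈ F
      · rw [((h2 i).1 hiF).2, mul_zero, zero_add] at h0
        exact (h4 i).2 ⟨hiF, h0⟩
      · exact absurd h0 (key i hi hiF).ne'

/-- The moving lemma: a functional above the bounds `b` on `X` can be moved, without changing it
on `Y`, until the tight members of `X` together with `Y` span all of `X`. -/
theorem move (a : ι → E) (X : Finset ι) (b : ι → ℝ) (Y : Set E) (φ₀ : E →ₗ[ℝ] ℝ)
    (h0 : ∀ i ∈ X, b i ≤ φ₀ (a i)) :
    ∃ φ : E →ₗ[ℝ] ℝ, (∀ i ∈ X, b i ≤ φ (a i)) ∧ (∀ y ∈ Y, φ y = φ₀ y) ∧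
      ∀ i ∈ X, a i ∈ Submodule.span ℝ (Y ∪ a '' {j | j ∈ X ∧ φ (a j) = b j}) := by
  classical
  suffices H : ∀ n : ℕ, ∀ ψ : E →ₗ[ℝ] ℝ, (∀ i ∈ X, b i ≤ ψ (a i)) → (∀ y ∈ Y, ψ y = φ₀ y) →
      (X.filter fun i => ψ (a i) ≠ b i).card ≤ n →
      ∃ φ : E →ₗ[ℝ] ℝ, (∀ i ∈ X, b i ≤ φ (a i)) ∧ (∀ y ∈ Y, φ y = φ₀ y) ∧
      ∀ i ∈ X, a i ∈ Submodule.span ℝ (Y ∪ a '' {j | j ∈ X ∧ φ (a j) = b j}) from
    H _ φ₀ h0 (fun _ _ => rfl) le_rfl
  intro n
  induction n with
  | zero =>
    intro ψ h1 h2 h3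
    refine ⟨ψ, h1, h2, fun i hi => Submodule.subset_span (Or.inr ⟨i, ⟨hi, ?_⟩, rfl⟩)⟩
    by_contra hne
    have h4 := Finset.card_eq_zero.1 (Nat.le_zero.1 h3)
    have h5 : i ∈ X.filter fun i => ψ (a i) ≠ b i := Finset.mem_filter.2 ⟨hi, hne⟩
    rw [h4] at h5
    exact absurd h5 (Finset.notMem_empty i)
  | succ n ih =>
    intro ψ h1 h2 h3
    by_cases hall : ∀ i ∈ X, a i ∈ Submodule.span ℝ (Y ∪ a '' {j | j ∈ X ∧ ψ (a j) = b j})
    · exact ⟨ψ, h1, h2, hall⟩
    · push Not at hall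
      obtain ⟨i, hi, his⟩ := hall
      obtain ⟨θ, hθi, hθ⟩ : ∃ θ : E →ₗ[ℝ] ℝ, θ (a i) < 0 ∧
          ∀ x ∈ Submodule.span ℝ (Y ∪ a '' {j | j ∈ X ∧ ψ (a j) = b j}), θ x = 0 := by
        obtain ⟨f, hf1, hf2⟩ := Submodule.exists_le_ker_of_notMem his
        rcases lt_or_gt_of_ne hf1 with h | h
        · exact ⟨f, h, fun x hx => hf2 hx⟩
        · refine ⟨-f, by simpa using h, fun x hx => ?_⟩
          have : f x = 0 := hf2 hx
          simp [this]
      have hYθ : ∀ y ∈ Y, θ y = 0 := fun y hy => hθ y (Submodule.subset_span (Or.inl hy))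
      have htθ : ∀ j ∈ X, ψ (a j) = b j → θ (a j) = 0 := fun j hj hjb =>
        hθ _ (Submodule.subset_span (Or.inr ⟨j, ⟨hj, hjb⟩, rfl⟩))
      obtain ⟨j0, hj0, hmin⟩ := Finset.exists_min_image (X.filter fun j => θ (a j) < 0)
        (fun j => (ψ (a j) - b j) / (- θ (a j))) ⟨i, Finset.mem_filter.2 ⟨hi, hθi⟩⟩
      rw [Finset.mem_filter] at hj0
      set t : ℝ := (ψ (a j0) - b j0) / (- θ (a j0)) with ht
      have ht0 : 0 ≤ t := div_nonneg (sub_nonneg.2 (h1 j0 hj0.1)) (by linarith [hj0.2])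
      refine ih (ψ + t • θ) (fun j hj => ?_) (fun y hy => ?_) ?_
      · simp only [LinearMap.add_apply, LinearMap.smul_apply, smul_eq_mul]
        rcases lt_or_ge (θ (a j)) 0 with h | h
        · have h4 := hmin j (Finset.mem_filter.2 ⟨hj, h⟩)
          have h5 : 0 < - θ (a j) := by linarith
          rw [le_div_iff₀ h5] at h4
          linarith
        · have := h1 j hj
          nlinarith
      · simp only [LinearMap.add_apply, LinearMap.smul_apply, smul_eq_mul, hYθ y hy, mul_zero,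
          add_zero]
        exact h2 y hy
      · have hsub : (X.filter fun j => (ψ + t • θ) (a j) ≠ b j) ⊆
            (X.filter fun j => ψ (a j) ≠ b j).erase j0 := by
          intro j hj
          rw [Finset.mem_filter] at hj
          obtain ⟨hj, hne⟩ := hj
          simp only [LinearMap.add_apply, LinearMap.smul_apply, smul_eq_mul] at hne
          rw [Finset.mem_erase, Finset.mem_filter]
          refine ⟨?_, hj, ?_⟩
          · rintro rfl
            apply hne
            have h5 : - θ (a j) ≠ 0 := by linarith [hj0.2]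
            have h6 : t * (- θ (a j)) = ψ (a j) - b j := by
              rw [ht]; exact div_mul_cancel₀ _ h5
            linarith
          · intro h5
            apply hne
            rw [htθ j hj h5, mul_zero, add_zero, h5]
        have hmem : j0 ∈ X.filter fun j => ψ (a j) ≠ b j := by
          rw [Finset.mem_filter]
          refine ⟨hj0.1, fun h5 => ?_⟩
          have := htθ j0 hj0.1 h5
          linarith [hj0.2]
        have h4 := Finset.card_le_card hsub
        rw [Finset.card_erase_of_mem hmem] at h4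
        have h5 := Finset.card_pos.2 ⟨j0, hmem⟩
        omega

variable [FiniteDimensional ℝ E]

theorem rk_mono {a : ι → E} {S T : Finset ι} (h : S ⊆ T) : rk a S ≤ rk a T :=
  Submodule.finrank_mono (sp_mono h)

theorem IsF.rk_lt {a : ι → E} {X T : Finset ι} (h : IsF a X T) {i : ι} (hi : i ∈ X)
    (hiT : i ∉ T) : rk a T < rk a X := by
  apply Submodule.finrank_lt_finrank_of_lt
  refine lt_of_le_of_ne (sp_mono h.sub) fun he => h.notMem hi hiT ?_
  rw [he]
  exact mem_sp hi

theorem finrank_sup_singleton {p : Submodule ℝ E} {x : E} (hx : x ∉ p) :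
    finrank ℝ (p ⊔ Submodule.span ℝ {x} : Submodule ℝ E) = finrank ℝ p + 1 := by
  have hx0 : x ≠ 0 := fun h => hx (h ▸ p.zero_mem)
  have h1 := Submodule.finrank_sup_add_finrank_inf_eq p (Submodule.span ℝ {x})
  have h2 : p ⊓ Submodule.span ℝ {x} = ⊥ := by
    rw [eq_bot_iff]
    rintro y ⟨hy1, hy2⟩
    obtain ⟨c, rfl⟩ := Submodule.mem_span_singleton.1 hy2
    rw [Submodule.mem_bot]
    by_contra hne
    have hc : c ≠ 0 := fun h => hne (by rw [h, zero_smul])
    apply hx
    have := p.smul_mem c⁻¹ hy1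
    rwa [smul_smul, inv_mul_cancel₀ hc, one_smul] at this
  rw [h2, finrank_bot, add_zero, finrank_span_singleton hx0] at h1
  exact h1

/-- Facets through a face and missing a given vector. -/
theorem facet {a : ι → E} {X A : Finset ι} (hA : IsF a X A) {x : ι} (hx : x ∈ X) (hxA : x ∉ A) :
    ∃ F, IsF a X F ∧ A ⊆ F ∧ x ∉ F ∧ rk a F + 1 = rk a X := by
  classical
  have hAX := hA.sub
  obtain ⟨l, h1, h2⟩ := hA
  have hlx : 0 < l (a x) := lt_of_le_of_ne (h1 x hx) fun h => hxA ((h2 x).2 ⟨hx, h.symm⟩)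
  obtain ⟨φ, hφ1, hφ2, hφ3⟩ := move a X (fun _ => 0) (a '' (A : Set ι) ∪ {a x}) l h1
  have hφx : φ (a x) = l (a x) := hφ2 _ (Or.inr rfl)
  have hφA : ∀ i ∈ A, φ (a i) = 0 := fun i hi => by
    rw [hφ2 _ (Or.inl ⟨i, by exact_mod_cast hi, rfl⟩)]
    exact ((h2 i).1 hi).2
  set F : Finset ι := X.filter fun i => φ (a i) = 0 with hF
  have hFF : IsF a X F := ⟨φ, hφ1, fun i => by rw [hF, Finset.mem_filter]⟩
  have hxF : x ∉ F := by
    rw [hF, Finset.mem_filter]
    rintro ⟨-, h⟩
    rw [hφx] at h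
    exact hlx.ne' h
  refine ⟨F, hFF, fun i hi => ?_, hxF, ?_⟩
  · rw [hF, Finset.mem_filter]; exact ⟨hAX hi, hφA i hi⟩
  · have hsp : sp a X = sp a F ⊔ Submodule.span ℝ {a x} := by
      apply le_antisymm
      · refine sp_le fun i hi => ?_
        refine (Submodule.span_le.2 ?_) (hφ3 i hi)
        rintro y ((⟨j, hj, rfl⟩ | hy) | ⟨j, ⟨hj, hj0⟩, rfl⟩)
        · refine Submodule.mem_sup_left (mem_sp ?_)
          have hj' : j ∈ A := by exact_mod_cast hj
          rw [hF, Finset.mem_filter]; exact ⟨hAX hj', hφA j hj'⟩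
        · rw [Set.mem_singleton_iff] at hy
          rw [hy]
          exact Submodule.mem_sup_right (Submodule.mem_span_singleton_self _)
        · refine Submodule.mem_sup_left (mem_sp ?_)
          rw [hF, Finset.mem_filter]; exact ⟨hj, hj0⟩
      · refine sup_le (sp_mono hFF.sub) ?_
        rw [Submodule.span_singleton_le_iff_mem]
        exact mem_sp hx
    have hxs : a x ∉ sp a F := hFF.notMem hx hxF
    unfold rk
    rw [hsp, finrank_sup_singleton hxs]

/-- A face of rank one more above `A`, not contained in `F`. -/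
theorem atom {a : ι → E} {X A F : Finset ι} (hA : IsF a X A) (hF : IsF a X F) (hAF : A ⊆ F)
    (hXF : ¬ X ⊆ F) : ∃ A', IsF a X A' ∧ A ⊆ A' ∧ ¬ A' ⊆ F ∧ rk a A' = rk a A + 1 := by
  classical
  suffices H : ∀ n : ℕ, ∀ T : Finset ι, T.card ≤ n → IsF a X T → A ⊆ T → ¬ T ⊆ F →
      ∃ A', IsF a X A' ∧ A ⊆ A' ∧ ¬ A' ⊆ F ∧ rk a A' = rk a A + 1 from
    H _ X le_rfl (IsF.refl a X) hA.sub hXF
  intro n
  induction n with
  | zero =>
    intro T hn _ _ hTF
    rw [Nat.le_zero, Finset.card_eq_zero] at hn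
    exact absurd (hn ▸ Finset.empty_subset F) hTF
  | succ n ih =>
    intro T hn hT hAT hTF
    obtain ⟨y, hyT, hyF⟩ := Finset.not_subset.1 hTF
    have hAT' : IsF a T A := hA.restrict hT.sub hAT
    have hyA : y ∉ A := fun h => hyF (hAF h)
    have hlt := hAT'.rk_lt hyT hyA
    rcases Nat.lt_or_ge (rk a A + 1) (rk a T) with hr | hr
    · obtain ⟨F1, hF1, hAF1, hyF1, hr1⟩ := facet hAT' hyT hyA
      have hF1A : ¬ F1 ⊆ A := by
        intro h
        have := rk_mono (a := a) h
        omega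
      obtain ⟨z, hzF1, hzA⟩ := Finset.not_subset.1 hF1A
      obtain ⟨F2, hF2, hAF2, hzF2, hr2⟩ := facet hAT' (hF1.sub hzF1) hzA
      by_cases h1 : F1 ⊆ F
      · by_cases h2 : F2 ⊆ F
        · exfalso
          have hzs : a z ∉ sp a F2 := hF2.notMem (hF1.sub hzF1) hzF2
          have hle : sp a F2 ⊔ Submodule.span ℝ {a z} ≤ sp a T := by
            refine sup_le (sp_mono hF2.sub) ?_
            rw [Submodule.span_singleton_le_iff_mem]
            exact mem_sp (hF1.sub hzF1)
          have heq : sp a F2 ⊔ Submodule.span ℝ {a z} = sp a T := by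
            apply Submodule.eq_of_le_of_finrank_le hle
            rw [finrank_sup_singleton hzs]
            change rk a T ≤ rk a F2 + 1
            omega
          have hle2 : sp a T ≤ sp a F := by
            rw [← heq]
            refine sup_le (sp_mono h2) ?_
            rw [Submodule.span_singleton_le_iff_mem]
            exact mem_sp (h1 hzF1)
          exact hF.notMem (hT.sub hyT) hyF (hle2 (mem_sp hyT))
        · refine ih F2 ?_ (hT.trans hF2) hAF2 h2
          have : F2 ⊂ T := ⟨hF2.sub, fun h => hzF2 (h (hF1.sub hzF1))⟩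
          have := Finset.card_lt_card this
          omega
      · refine ih F1 ?_ (hT.trans hF1) hAF1 h1
        have : F1 ⊂ T := ⟨hF1.sub, fun h => hyF1 (h hyT)⟩
        have := Finset.card_lt_card this
        omega
    · exact ⟨T, hT, hAT, hTF, by omega⟩

open Classical in
/-- Lower bound for the number of faces above a face. -/
theorem count (n : ℕ) : ∀ (a : ι → E) (X A : Finset ι) (j : ℕ), IsF a X A →
    rk a X = rk a A + n →
    n.choose j ≤ (X.powerset.filter fun T => IsF a X T ∧ A ⊆ T ∧ rk a T = rk a A + j).card := by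
  induction n with
  | zero =>
    intro a X A j hA _
    rcases j with _ | j
    · rw [Nat.choose_self]
      refine Finset.card_pos.2 ⟨A, ?_⟩
      rw [Finset.mem_filter, Finset.mem_powerset]
      exact ⟨hA.sub, hA, Finset.Subset.refl _, by simp⟩
    · simp
  | succ n ih =>
    intro a X A j hA hr
    rcases j with _ | j
    · rw [Nat.choose_zero_right]
      refine Finset.card_pos.2 ⟨A, ?_⟩
      rw [Finset.mem_filter, Finset.mem_powerset]
      exact ⟨hA.sub, hA, Finset.Subset.refl _, by simp⟩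
    · have hXA : ¬ X ⊆ A := fun h => by have := rk_mono (a := a) h; omega
      obtain ⟨x, hxX, hxA⟩ := Finset.not_subset.1 hXA
      obtain ⟨F, hF, hAF, hxF, hrF⟩ := facet hA hxX hxA
      obtain ⟨A', hA', hAA', hA'F, hrA'⟩ := atom hA hF hAF fun h => hxF (h hxX)
      have h1 := ih a X A' j hA' (by omega)
      have h2 := ih a F A (j + 1) (hA.restrict hF.sub hAF) (by omega)
      rw [Nat.choose_succ_succ]
      refine le_trans (Nat.add_le_add h1 h2) ?_
      rw [← Finset.card_union_of_disjoint]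
      · apply Finset.card_le_card
        intro T hT
        rw [Finset.mem_union] at hT
        rcases hT with hT | hT
        · rw [Finset.mem_filter, Finset.mem_powerset] at hT ⊢
          exact ⟨hT.1, hT.2.1, hAA'.trans hT.2.2.1, by rw [hT.2.2.2, hrA']; ring⟩
        · rw [Finset.mem_filter, Finset.mem_powerset] at hT ⊢
          exact ⟨hT.1.trans hF.sub, hF.trans hT.2.1, hT.2.2.1, hT.2.2.2⟩
      · rw [Finset.disjoint_left]
        intro T hT1 hT2
        rw [Finset.mem_filter, Finset.mem_powerset] at hT1 hT2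
        exact hA'F (hT1.2.2.1.trans hT2.1)

/-- The two-sided lemma: a hyperplane which contains no vector of a pointed configuration has a
face of at least half the rank on one of its sides. -/
theorem two_sided {a : ι → E} {X : Finset ι} (hpt : ∃ l : E →ₗ[ℝ] ℝ, ∀ i ∈ X, 0 < l (a i))
    (h : E →ₗ[ℝ] ℝ) (hne : ∀ i ∈ X, h (a i) ≠ 0) :
    ∃ T, IsF a X T ∧ rk a X ≤ 2 * rk a T ∧
      ((∀ i ∈ T, 0 < h (a i)) ∨ (∀ i ∈ T, h (a i) < 0)) := by
  classical
  obtain ⟨l, hl⟩ := hpt
  obtain ⟨c, hc, hc2⟩ := exists_big X (fun i => l (a i)) (fun i => |h (a i)|) hl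
  obtain ⟨φ, hφ1, -, hφ3⟩ := move a X (fun i => max 0 (h (a i))) ∅ (c • l) (fun i hi => by
    rw [LinearMap.smul_apply, smul_eq_mul]
    have h1 := hc2 i hi
    have h2 := le_abs_self (h (a i))
    have h3 := abs_nonneg (h (a i))
    exact max_le (by linarith) (by linarith))
  set TU : Finset ι := X.filter fun i => 0 < h (a i) ∧ φ (a i) = h (a i) with hTU
  set TD : Finset ι := X.filter fun i => h (a i) < 0 ∧ φ (a i) = 0 with hTD
  have hU : IsF a X TU := by
    refine ⟨φ - h, fun i hi => ?_, fun i => ?_⟩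
    · rw [LinearMap.sub_apply, sub_nonneg]
      exact (le_max_right _ _).trans (hφ1 i hi)
    · rw [hTU, Finset.mem_filter, LinearMap.sub_apply, sub_eq_zero]
      constructor
      · rintro ⟨h1, -, h2⟩
        exact ⟨h1, h2⟩
      · rintro ⟨h1, h2⟩
        refine ⟨h1, lt_of_le_of_ne ?_ (hne i h1).symm, h2⟩
        rw [← h2]
        exact (le_max_left _ _).trans (hφ1 i h1)
  have hD : IsF a X TD := by
    refine ⟨φ, fun i hi => (le_max_left _ _).trans (hφ1 i hi), fun i => ?_⟩
    rw [hTD, Finset.mem_filter]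
    constructor
    · rintro ⟨h1, -, h2⟩
      exact ⟨h1, h2⟩
    · rintro ⟨h1, h2⟩
      refine ⟨h1, lt_of_le_of_ne ?_ (hne i h1), h2⟩
      rw [← h2]
      exact (le_max_right _ _).trans (hφ1 i h1)
  have hsp : sp a X ≤ sp a TU ⊔ sp a TD := by
    refine sp_le fun i hi => ?_
    refine (Submodule.span_le.2 ?_) (hφ3 i hi)
    rintro y (hy | ⟨j, ⟨hj, hj0⟩, rfl⟩)
    · exact absurd hy (Set.notMem_empty y)
    · rcases lt_or_gt_of_ne (hne j hj) with h1 | h1
      · refine Submodule.mem_sup_right (mem_sp ?_)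
        rw [hTD, Finset.mem_filter]
        refine ⟨hj, h1, ?_⟩
        rw [hj0]; exact max_eq_left h1.le
      · refine Submodule.mem_sup_left (mem_sp ?_)
        rw [hTU, Finset.mem_filter]
        refine ⟨hj, h1, ?_⟩
        rw [hj0]; exact max_eq_right h1.le
  have hr : rk a X ≤ rk a TU + rk a TD :=
    (Submodule.finrank_mono hsp).trans (Submodule.finrank_add_le_finrank_add_finrank _ _)
  rcases le_total (rk a TU) (rk a TD) with h1 | h1
  · exact ⟨TD, hD, by omega, Or.inr fun i hi => (Finset.mem_filter.1 hi).2.1⟩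
  · exact ⟨TU, hU, by omega, Or.inl fun i hi => (Finset.mem_filter.1 hi).2.1⟩

omit [FiniteDimensional ℝ E] in
/-- A non-simplicial face is spanned by fewer vectors than its rank. -/
theorem small {a : ι → E} {X T : Finset ι} (hTX : T ⊆ X)
    (hpt : ∃ l : E →ₗ[ℝ] ℝ, ∀ i ∈ X, 0 < l (a i))
    (hext : ∀ i ∈ X, ∃ l : E →ₗ[ℝ] ℝ, (∀ j ∈ X, 0 ≤ l (a j)) ∧ l (a i) = 0 ∧
      ∀ j ∈ X, l (a j) = 0 → j = i)
    (hdep : rk a T ≠ T.card) :
    ∃ S ⊆ T, S.card < rk a T ∧ ∀ l : E →ₗ[ℝ] ℝ, (∀ i ∈ X, 0 ≤ l (a i)) →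
      (∀ i ∈ S, l (a i) = 0) → ∀ i ∈ T, l (a i) = 0 := by
  classical
  obtain ⟨B', hBT', -, hBs, hBi⟩ := exists_linearIndepOn_extension (K := ℝ) (v := a)
    (s := ∅) (t := (T : Set ι)) (linearIndepOn_empty ℝ a) (Set.empty_subset _)
  have hfin : B'.Finite := T.finite_toSet.subset hBT'
  obtain ⟨B, rfl⟩ := hfin.exists_finset_coe
  have hBT : B ⊆ T := by exact_mod_cast hBT'
  have hspB : sp a B = sp a T := by
    apply le_antisymm (sp_mono hBT)
    refine sp_le fun i hi => hBs ⟨i, by exact_mod_cast hi, rfl⟩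
  have hBcard : B.card = rk a T := by
    unfold rk
    rw [← hspB]
    have h1 : LinearIndependent ℝ (fun i : B => a i) := hBi
    have h2 := finrank_span_eq_card h1
    rw [Fintype.card_coe] at h2
    have h3 : Set.range (fun i : B => a i) = a '' (B : Set ι) := by
      ext x
      constructor
      · rintro ⟨i, rfl⟩
        exact ⟨i, i.2, rfl⟩
      · rintro ⟨i, hi, rfl⟩
        exact ⟨⟨i, hi⟩, rfl⟩
    rw [← h2, h3]
    rfl
  have hne : ¬ T ⊆ B := by
    intro h
    apply hdep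
    rw [← hBcard, Finset.Subset.antisymm hBT h]
  obtain ⟨t, htT, htB⟩ := Finset.not_subset.1 hne
  have hts : a t ∈ Submodule.span ℝ (a '' (B : Set ι)) := hBs ⟨t, by exact_mod_cast htT, rfl⟩
  obtain ⟨c, hc⟩ : ∃ c : ι → ℝ, a t = ∑ i ∈ B, c i • a i := by
    rw [Submodule.mem_span_image_finset_iff_exists_fun] at hts
    obtain ⟨c, hc⟩ := hts
    refine ⟨fun i => if hi : i ∈ B then c ⟨i, hi⟩ else 0, ?_⟩
    rw [← hc, ← Finset.sum_coe_sort B]
    refine Finset.sum_congr rfl fun i _ => ?_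
    simp only [i.2, dite_true, Subtype.coe_eta]
  set P : Finset ι := B.filter fun i => 0 < c i with hP
  have hPB : P ⊆ B := Finset.filter_subset _ _
  have hsplit : ∀ l : E →ₗ[ℝ] ℝ, l (a t) = ∑ i ∈ P, c i * l (a i) +
      ∑ i ∈ B \ P, c i * l (a i) := by
    intro l
    rw [add_comm, Finset.sum_sdiff hPB]
    have := congrArg l hc
    rw [map_sum] at this
    rw [this]
    exact Finset.sum_congr rfl fun i _ => by rw [map_smul, smul_eq_mul]
  have hneg : ∀ l : E →ₗ[ℝ] ℝ, (∀ i ∈ X, 0 ≤ l (a i)) → ∑ i ∈ B \ P, c i * l (a i) ≤ 0 := by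
    intro l hl
    refine Finset.sum_nonpos fun i hi => ?_
    rw [Finset.mem_sdiff] at hi
    have h1 : c i ≤ 0 := by
      by_contra h
      exact hi.2 (Finset.mem_filter.2 ⟨hi.1, not_le.1 h⟩)
    exact mul_nonpos_of_nonpos_of_nonneg h1 (hl i (hTX (hBT hi.1)))
  have hP2 : 2 ≤ P.card := by
    by_contra hlt
    have hle : P.card ≤ 1 := by omega
    have : Nonempty ι := ⟨t⟩
    rcases Finset.card_le_one_iff_subset_singleton.1 hle with ⟨p, hp⟩
    by_cases hpP : p ∈ P
    · have hPp : P = {p} := Finset.Subset.antisymm hp (Finset.singleton_subset_iff.2 hpP)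
      have hpX : p ∈ X := hTX (hBT (hPB hpP))
      obtain ⟨l, hl1, hl2, hl3⟩ := hext p hpX
      have h1 := hsplit l
      rw [hPp, Finset.sum_singleton, hl2, mul_zero, zero_add, ← hPp] at h1
      have h2 := hneg l hl1
      have h3 := hl1 t (hTX htT)
      have h4 : t = p := hl3 t (hTX htT) (by linarith)
      exact htB (h4 ▸ hPB hpP)
    · have hPe : P = ∅ := by
        apply Finset.eq_empty_of_forall_notMem
        intro x hx
        have := hp hx
        rw [Finset.mem_singleton] at this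
        exact hpP (this ▸ hx)
      obtain ⟨l, hl⟩ := hpt
      have h1 := hsplit l
      rw [hPe, Finset.sum_empty, zero_add, ← hPe] at h1
      have h2 := hneg l fun i hi => (hl i hi).le
      have h3 := hl t (hTX htT)
      linarith
  refine ⟨insert t (B \ P), ?_, ?_, fun l hl hS => ?_⟩
  · intro i hi
    rw [Finset.mem_insert, Finset.mem_sdiff] at hi
    rcases hi with rfl | hi
    · exact htT
    · exact hBT hi.1
  · rw [← hBcard]
    have h1 := Finset.card_insert_le t (B \ P)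
    have h2 := Finset.card_sdiff_add_card_eq_card hPB
    omega
  · have h1 := hsplit l
    rw [hS t (Finset.mem_insert_self _ _)] at h1
    have h2 : ∑ i ∈ B \ P, c i * l (a i) = 0 := by
      refine Finset.sum_eq_zero fun i hi => ?_
      rw [hS i (Finset.mem_insert_of_mem hi), mul_zero]
    rw [h2, add_zero] at h1
    have h3 : ∀ i ∈ P, 0 ≤ c i * l (a i) := fun i hi =>
      mul_nonneg (Finset.mem_filter.1 hi).2.le (hl i (hTX (hBT (hPB hi))))
    have h4 := (Finset.sum_eq_zero_iff_of_nonneg h3).1 h1.symm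
    have h5 : ∀ i ∈ B, l (a i) = 0 := by
      intro i hi
      by_cases hiP : i ∈ P
      · rcases mul_eq_zero.1 (h4 i hiP) with h | h
        · exact absurd h (Finset.mem_filter.1 hiP).2.ne'
        · exact h
      · exact hS i (Finset.mem_insert_of_mem (Finset.mem_sdiff.2 ⟨hi, hiP⟩))
    intro i hi
    refine zero_on_sp h5 ?_
    rw [hspB]
    exact mem_sp hi

end Pool.Agent.Lib.MP_257afc_co.LD
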