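import Pool.Agent.Lib.MP_257afc_co.LD.H31.Hull

/-!
Low degrees give simple faces, and simplex or cube faces.
-/

set_option autoImplicit false

namespace Pool.Agent.Lib.MP_257afc_co.LD

open Finset Module

theorem pow_le_choose (K : ℕ) : ∀ m : ℕ, K ≤ m → m ^ K ≤ K ^ K * m.choose K := by
  induction K with
  | zero => intro m _; simp
  | succ K ih =>
    intro m hm
    obtain ⟨m, rfl⟩ : ∃ n, m = n + 1 := ⟨m - 1, by omega⟩
    have hKm : K ≤ m := by omega
    have h1 := ih m hKm
    have h2 : (K + 1) * (m + 1).choose (K + 1) = (m + 1) * m.choose K := by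
      rw [Nat.mul_comm (K + 1), ← Nat.add_one_mul_choose_eq]
    have h3 : (m + 1) ^ K ≤ (K + 1) ^ K * m.choose K := by
      rcases Nat.eq_zero_or_pos K with rfl | hK
      · simp
      have h4 : ((m + 1) * K) ^ K ≤ (m * (K + 1)) ^ K := by
        apply Nat.pow_le_pow_left
        nlinarith
      rw [mul_pow, mul_pow] at h4
      have h5 : m ^ K * (K + 1) ^ K ≤ (K ^ K * m.choose K) * (K + 1) ^ K :=
        Nat.mul_le_mul_right _ h1
      have h6 : (m + 1) ^ K * K ^ K ≤ ((K + 1) ^ K * m.choose K) * K ^ K := by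
        calc (m + 1) ^ K * K ^ K ≤ m ^ K * (K + 1) ^ K := h4
          _ ≤ _ := h5
          _ = _ := by ring
      exact Nat.le_of_mul_le_mul_right h6 (pow_pos hK K)
    calc (m + 1) ^ (K + 1) = (m + 1) * (m + 1) ^ K := by ring
      _ ≤ (m + 1) * ((K + 1) ^ K * m.choose K) := Nat.mul_le_mul_left _ h3
      _ = (K + 1) ^ K * ((m + 1) * m.choose K) := by ring
      _ = (K + 1) ^ K * ((K + 1) * (m + 1).choose (K + 1)) := by rw [h2]
      _ = _ := by ring

theorem sum_choose_le {K n : ℕ} (hn : 1 ≤ n) :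
    ∑ i ∈ Finset.range K, n.choose i ≤ K * n ^ (K - 1) := by
  have h : ∀ i ∈ Finset.range K, n.choose i ≤ n ^ (K - 1) := by
    intro i hi
    rw [Finset.mem_range] at hi
    exact (Nat.choose_le_pow n i).trans (Nat.pow_le_pow_right hn (by omega))
  calc ∑ i ∈ Finset.range K, n.choose i ≤ ∑ i ∈ Finset.range K, n ^ (K - 1) :=
        Finset.sum_le_sum h
    _ = _ := by rw [Finset.sum_const, Finset.card_range, smul_eq_mul]

/-- The numerical condition. -/
theorem numeric {ι : Type*} (V : Finset ι) (n : ι → ℕ) {d K : ℕ} (hK : 1 ≤ K)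
    (hn : ∀ v ∈ V, d ≤ n v) (h : (2 * K) ^ (K + 1) * ∑ v ∈ V, n v ^ (K - 1) < V.card * d ^ K) :
    2 * ∑ v ∈ V, ∑ i ∈ Finset.range K, (n v).choose i < V.card * ((d + 1) / 2).choose K := by
  have hd0 : 0 < d := by
    rcases Nat.eq_zero_or_pos d with rfl | h0
    · rw [zero_pow (by omega), mul_zero] at h
      exact absurd h (Nat.not_lt_zero _)
    · exact h0
  -- the dimension is large
  have h1 : V.card * d ^ (K - 1) ≤ ∑ v ∈ V, n v ^ (K - 1) := by
    rw [← smul_eq_mul, ← Finset.sum_const]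
    exact Finset.sum_le_sum fun v hv => Nat.pow_le_pow_left (hn v hv) _
  have hV : 0 < V.card := by
    rcases Nat.eq_zero_or_pos V.card with h0 | h0
    · rw [h0, zero_mul] at h
      exact absurd h (Nat.not_lt_zero _)
    · exact h0
  have h2 : (2 * K) ^ (K + 1) < d := by
    have h3 : (V.card * d ^ (K - 1)) * (2 * K) ^ (K + 1) < (V.card * d ^ (K - 1)) * d := by
      calc (V.card * d ^ (K - 1)) * (2 * K) ^ (K + 1) ≤
          (∑ v ∈ V, n v ^ (K - 1)) * (2 * K) ^ (K + 1) := Nat.mul_le_mul_right _ h1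
        _ < V.card * d ^ K := by rw [mul_comm]; exact h
        _ = (V.card * d ^ (K - 1)) * d := by
          rw [mul_assoc, ← pow_succ, Nat.sub_add_cancel hK]
    exact lt_of_mul_lt_mul_left h3 (Nat.zero_le _)
  have h4 : 2 * K ≤ d := by
    have h5 : (2 * K) ^ 1 ≤ (2 * K) ^ (K + 1) := Nat.pow_le_pow_right (by omega) (by omega)
    rw [pow_one] at h5
    omega
  set m := (d + 1) / 2 with hm
  have hmK : K ≤ m := by omega
  have hdm : d ≤ 2 * m := by omega
  have h6 : d ^ K ≤ (2 * K) ^ K * m.choose K := by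
    calc d ^ K ≤ (2 * m) ^ K := Nat.pow_le_pow_left hdm K
      _ = 2 ^ K * m ^ K := mul_pow _ _ _
      _ ≤ 2 ^ K * (K ^ K * m.choose K) := Nat.mul_le_mul_left _ (pow_le_choose K m hmK)
      _ = (2 * K) ^ K * m.choose K := by rw [mul_pow]; ring
  have h7 : ∑ v ∈ V, ∑ i ∈ Finset.range K, (n v).choose i ≤ K * ∑ v ∈ V, n v ^ (K - 1) := by
    rw [Finset.mul_sum]
    exact Finset.sum_le_sum fun v hv => sum_choose_le (hd0.trans_le (hn v hv))
  have h8 : (2 * K) ^ K * (2 * ∑ v ∈ V, ∑ i ∈ Finset.range K, (n v).choose i) <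
      (2 * K) ^ K * (V.card * m.choose K) := by
    calc (2 * K) ^ K * (2 * ∑ v ∈ V, ∑ i ∈ Finset.range K, (n v).choose i) ≤
        (2 * K) ^ K * (2 * (K * ∑ v ∈ V, n v ^ (K - 1))) :=
          Nat.mul_le_mul_left _ (Nat.mul_le_mul_left _ h7)
      _ = (2 * K) ^ (K + 1) * ∑ v ∈ V, n v ^ (K - 1) := by rw [pow_succ]; ring
      _ < V.card * d ^ K := h
      _ ≤ V.card * ((2 * K) ^ K * m.choose K) := Nat.mul_le_mul_left _ h6
      _ = _ := by ring
  exact lt_of_mul_lt_mul_left h8 (Nat.zero_le _)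

section

variable {E : Type*} [NormedAddCommGroup E] [NormedSpace ℝ E]

/-- Exposed faces are the hulls of their vertices. -/
theorem exposed_eq_hull [DecidableEq E] {V : Finset E} {G : Set E}
    (hG : IsExposed ℝ (convexHull ℝ (V : Set E)) G) {A : Finset E}
    (hA : ∀ x, x ∈ A ↔ x ∈ V ∧ x ∈ G) : G = convexHull ℝ (A : Set E) := by
  classical
  have hconv : Convex ℝ G := hG.convex (convex_convexHull ℝ _)
  have hcomp : IsCompact G := hG.isCompact (V.finite_toSet.isCompact_convexHull ℝ)
  apply Set.Subset.antisymm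
  · have h1 := closure_convexHull_extremePoints hcomp hconv
    have h2 : G.extremePoints ℝ ⊆ (A : Set E) := by
      intro x hx
      have h3 := hG.isExtreme.extremePoints_subset_extremePoints hx
      have h4 := extremePoints_convexHull_subset h3
      exact_mod_cast (hA x).2 ⟨by exact_mod_cast h4, hx.1⟩
    calc G = closure (convexHull ℝ (G.extremePoints ℝ)) := h1.symm
      _ ⊆ closure (convexHull ℝ (A : Set E)) := closure_mono (convexHull_mono h2)
      _ = convexHull ℝ (A : Set E) :=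
        ((A.finite_toSet).isCompact_convexHull ℝ).isClosed.closure_eq
  · exact convexHull_min (fun x hx => ((hA x).1 (by exact_mod_cast hx)).2) hconv

/-- The edges at a vertex are the segments to the neighbours. -/
theorem edges_eq [FiniteDimensional ℝ E] [DecidableEq E] {V : Finset E}
    (hext : (V : Set E) = (convexHull ℝ (V : Set E)).extremePoints ℝ) {v : E} (hv : v ∈ V) :
    {G | IsExposed ℝ (convexHull ℝ (V : Set E)) G ∧ v ∈ G ∧
      finrank ℝ (affineSpan ℝ G).direction = 1} =
      (fun w => segment ℝ v w) '' nbrs (convexHull ℝ (V : Set E)) v := by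
  classical
  obtain ⟨P, hPV, hPN⟩ := exists_gsys V hext
  have hvP : v ∈ P.V := by rw [hPV]; exact hv
  ext G
  constructor
  · rintro ⟨hG, hvG, hdim⟩
    set A : Finset E := V.filter fun x => x ∈ G with hAdef
    have hA : ∀ x, x ∈ A ↔ x ∈ V ∧ x ∈ G := fun x => by rw [hAdef, Finset.mem_filter]
    have hGA := exposed_eq_hull hG hA
    have hvA : v ∈ A := (hA v).2 ⟨hv, hvG⟩
    -- `A` is a face
    have hFc : P.Fc A := by
      obtain ⟨l, m, h1, -, h2⟩ := exposed_cases hG ⟨v, hvG⟩
      refine ⟨-l.toLinearMap, -m, fun x hx => ?_, fun x => ?_⟩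
      · rw [hPV] at hx
        simp only [LinearMap.neg_apply, ContinuousLinearMap.coe_coe]
        exact neg_le_neg (h1 x hx)
      · rw [hA, hPV]
        simp only [LinearMap.neg_apply, ContinuousLinearMap.coe_coe, neg_inj]
        rw [← h2 x]
        constructor
        · rintro ⟨h3, h4⟩
          exact ⟨h4, by exact_mod_cast h3⟩
        · rintro ⟨h3, h4⟩
          exact ⟨by exact_mod_cast h4, h3⟩
    have hdm : GSys.dm A = 1 := by
      unfold GSys.dm
      rw [← direction_affineSpan, ← affineSpan_convexHull, ← hGA]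
      exact hdim
    rw [hFc.dm_eq hvA] at hdm
    have hne : (P.N v ∩ A).Nonempty := by
      rw [Finset.nonempty_iff_ne_empty]
      intro h0
      rw [h0] at hdm
      unfold rk sp at hdm
      rw [Finset.coe_empty, Set.image_empty, Submodule.span_empty, finrank_bot] at hdm
      exact absurd hdm (by norm_num)
    obtain ⟨w, hw⟩ := hne
    rw [Finset.mem_inter] at hw
    obtain ⟨l, hl1, hl2, hl3⟩ := P.edge v hvP w hw.1
    -- the edge is a face of rank one inside
    have hwv : w ≠ v := fun h => P.self v hvP (h ▸ hw.1)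
    have hspan : sp (dir v) (P.N v ∩ A) = Submodule.span ℝ {dir v w} := by
      symm
      apply Submodule.eq_of_le_of_finrank_le
      · rw [Submodule.span_singleton_le_iff_mem]
        exact mem_sp (Finset.mem_inter.2 hw)
      · have h1 : finrank ℝ (Submodule.span ℝ {dir v w}) = 1 :=
          finrank_span_singleton (sub_ne_zero.2 hwv)
        rw [h1]
        exact hdm.le
    have hAvw : A = {v, w} := by
      ext x
      rw [Finset.mem_insert, Finset.mem_singleton]
      constructor
      · intro hx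
        have hxV : x ∈ P.V := hFc.sub hx
        have h1 := (hFc.local hvA).2
        rw [← h1, P.mem_fa, hspan] at hx
        obtain ⟨c, hc⟩ := Submodule.mem_span_singleton.1 hx.2
        refine hl3 x hxV ?_
        rw [← hc, map_smul]
        change c • l (w - v) = 0
        rw [hl2, smul_zero]
      · rintro (rfl | rfl)
        · exact hvA
        · exact hw.2
    refine ⟨w, ?_, ?_⟩
    · have h1 : w ∈ (P.N v : Set E) := by exact_mod_cast hw.1
      rwa [hPN v hv] at h1
    · change segment ℝ v w = G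
      rw [hGA, hAvw, Finset.coe_pair, convexHull_pair]
  · rintro ⟨w, ⟨-, hwv, hexp⟩, rfl⟩
    refine ⟨hexp, left_mem_segment ℝ v w, ?_⟩
    change finrank ℝ (affineSpan ℝ (segment ℝ v w)).direction = 1
    rw [← convexHull_pair, affineSpan_convexHull, direction_affineSpan, vectorSpan_pair]
    exact finrank_span_singleton (by
      rw [vsub_eq_sub]; exact sub_ne_zero.2 hwv.symm)

theorem edges_ncard [FiniteDimensional ℝ E] [DecidableEq E] {V : Finset E}
    (hext : (V : Set E) = (convexHull ℝ (V : Set E)).extremePoints ℝ) {v : E} (hv : v ∈ V) :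
    {G | IsExposed ℝ (convexHull ℝ (V : Set E)) G ∧ v ∈ G ∧
      finrank ℝ (affineSpan ℝ G).direction = 1}.ncard =
      (nbrs (convexHull ℝ (V : Set E)) v).ncard := by
  rw [edges_eq hext hv]
  apply Set.InjOn.ncard_image
  intro w hw w' hw' heq
  have hvP : v ∈ convexHull ℝ (V : Set E) := subset_convexHull ℝ _ (by exact_mod_cast hv)
  have hmem : w ∈ segment ℝ v w' := by
    have : segment ℝ v w = segment ℝ v w' := heq
    rw [← this]; exact right_mem_segment ℝ v w
  rcases (mem_extremePoints_iff_forall_segment.1 hw.1).2 v hvP w' hw'.1.1 hmem with h | h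
  · exact absurd h.symm hw.2.1
  · exact h.symm

end

/-- Every vertex of a `d`-polytope has degree at least `d`. -/
theorem degree_ge {E : Type*} [NormedAddCommGroup E] [NormedSpace ℝ E] [FiniteDimensional ℝ E]
    {d : ℕ} (hdim : finrank ℝ E = d) (V : Finset E)
    (hext : (V : Set E) = (convexHull ℝ (V : Set E)).extremePoints ℝ)
    (hspan : affineSpan ℝ (V : Set E) = ⊤) {v : E} (hv : v ∈ V) :
    d ≤ {G | IsExposed ℝ (convexHull ℝ (V : Set E)) G ∧ v ∈ G ∧
        finrank ℝ (affineSpan ℝ G).direction = 1}.ncard := by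
  classical
  obtain ⟨P, hPV, hPN⟩ := exists_gsys V hext
  rw [edges_ncard hext hv, ← hPN v hv, Set.ncard_coe_finset, ← hdim]
  refine (rank_ge P (by rw [hPV]; exact hspan) (by rw [hPV]; exact hv)).trans ?_
  unfold rk sp
  rw [← Finset.coe_image]
  exact (finrank_span_finset_le_card _).trans Finset.card_image_le

/-- Low degrees give simple faces, and simplex or cube faces. -/
theorem main {E : Type*} [NormedAddCommGroup E] [NormedSpace ℝ E] [FiniteDimensional ℝ E]
    {d K : ℕ} (hdim : finrank ℝ E = d) (V : Finset E)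
    (hext : (V : Set E) = (convexHull ℝ (V : Set E)).extremePoints ℝ)
    (hspan : affineSpan ℝ (V : Set E) = ⊤)
    (hdeg : 2 * ∑ v ∈ V, ∑ i ∈ Finset.range K,
      {G | IsExposed ℝ (convexHull ℝ (V : Set E)) G ∧ v ∈ G ∧
        finrank ℝ (affineSpan ℝ G).direction = 1}.ncard.choose i <
        V.card * ((d + 1) / 2).choose K) :
    (∃ F : Set E, F.Nonempty ∧ IsExposed ℝ (convexHull ℝ (V : Set E)) F ∧
      finrank ℝ (affineSpan ℝ F).direction = K ∧
      ∀ v ∈ F.extremePoints ℝ, {G | IsExposed ℝ F G ∧ v ∈ G ∧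
        finrank ℝ (affineSpan ℝ G).direction = 1}.ncard = K) ∧
    ∀ k : ℕ, 4 ^ k * k ^ 3 < K →
      ∃ F : Set E, F.Nonempty ∧ IsExposed ℝ (convexHull ℝ (V : Set E)) F ∧
        finrank ℝ (affineSpan ℝ F).direction = k ∧ Concl E k F := by
  classical
  obtain ⟨P, hPV, hPN⟩ := exists_gsys V hext
  have hcard : ∀ v ∈ V, {G | IsExposed ℝ (convexHull ℝ (V : Set E)) G ∧ v ∈ G ∧
        finrank ℝ (affineSpan ℝ G).direction = 1}.ncard = (P.N v).card := by
    intro v hv
    rw [edges_ncard hext hv, ← hPN v hv, Set.ncard_coe_finset]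
  have hrank : ∀ v ∈ P.V, d ≤ rk (dir v) (P.N v) := by
    intro v hv
    rw [← hdim]
    exact rank_ge P (by rw [hPV]; exact hspan) hv
  have hsum : ∑ v ∈ V, ∑ i ∈ Finset.range K,
      {G | IsExposed ℝ (convexHull ℝ (V : Set E)) G ∧ v ∈ G ∧
        finrank ℝ (affineSpan ℝ G).direction = 1}.ncard.choose i =
      ∑ v ∈ V, ∑ i ∈ Finset.range K, (P.N v).card.choose i :=
    Finset.sum_congr rfl fun v hv => by rw [hcard v hv]
  rw [hsum, ← hPV] at hdeg
  obtain ⟨A, hA, hs⟩ := P.exists_simple hrank hdeg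
  obtain ⟨hFc, hAne, hdm⟩ := P.mem_faces.1 hA
  have hAV : A ⊆ V := by rw [← hPV]; exact hFc.sub
  -- the supporting functional
  obtain ⟨l, m, hl1, hl2⟩ := id hFc
  set L : E →L[ℝ] ℝ := -(LinearMap.toContinuousLinearMap l) with hL
  have hLx : ∀ x, L x = -l x := fun x => by
    rw [hL]
    simp only [_root_.neg_apply, LinearMap.coe_toContinuousLinearMap']
  have hL1 : ∀ z ∈ A, L z = -m := fun z hz => by rw [hLx, ((hl2 z).1 hz).2]
  have hL2 : ∀ z ∈ V, z ∉ A → L z < -m := by
    intro z hz hzA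
    rw [hLx, neg_lt_neg_iff]
    rw [← hPV] at hz
    exact lt_of_le_of_ne (hl1 z hz) fun h => hzA ((hl2 z).2 ⟨hz, h.symm⟩)
  have hexpA : IsExposed ℝ (convexHull ℝ (V : Set E)) (convexHull ℝ (A : Set E)) :=
    exposed_hull L (-m) hAV hL1 hL2 hAne
  set S : Sys E K := P.toSys hA hs with hS
  have hSV : S.V = A := rfl
  have hextA : (A : Set E) = (convexHull ℝ (A : Set E)).extremePoints ℝ := by
    have := S.extremePoints_eq
    rw [hSV] at this
    exact this.symm
  have hnbrs : ∀ v ∈ A, nbrs (convexHull ℝ (A : Set E)) v = (P.N v ∩ A : Finset E) := by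
    intro v hv
    ext w
    rw [Finset.coe_inter, Set.mem_inter_iff, hPN v (hAV hv)]
    unfold nbrs
    simp only [Set.mem_ofPred_eq]
    rw [← hextA, ← hext]
    constructor
    · rintro ⟨h1, h2, h3⟩
      exact ⟨⟨by exact_mod_cast hAV (by exact_mod_cast h1), h2,
        exposed_trans hAV L (-m) hL1 hL2 ⟨v, left_mem_segment ℝ v w⟩ h3⟩, h1⟩
    · rintro ⟨⟨-, h2, h3⟩, h1⟩
      refine ⟨h1, h2, h3.mono (convexHull_mono (by exact_mod_cast hAV)) ?_⟩
      refine (convex_convexHull ℝ (A : Set E)).segment_subset ?_ ?_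
      · exact subset_convexHull ℝ _ (by exact_mod_cast hv)
      · exact subset_convexHull ℝ _ h1
  refine ⟨⟨convexHull ℝ (A : Set E), ?_, hexpA, ?_, ?_⟩, ?_⟩
  · obtain ⟨v, hv⟩ := hAne
    exact ⟨v, subset_convexHull ℝ _ (by exact_mod_cast hv)⟩
  · rw [affineSpan_convexHull, direction_affineSpan]
    exact hdm
  · intro v hv
    rw [← hextA] at hv
    have hvA : v ∈ A := by exact_mod_cast hv
    rw [edges_ncard hextA hvA, hnbrs v hvA, Set.ncard_coe_finset]
    exact hs v hvA
  · intro k hk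
    obtain ⟨F, h1, h2, h3, h4⟩ := main_sys S hk (by rw [hSV]; exact hAne)
    rw [hSV] at h2
    exact ⟨F, h1, exposed_trans hAV L (-m) hL1 hL2 h1 h2, h3, h4⟩

end Pool.Agent.Lib.MP_257afc_co.LD
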