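import Pool.Agent.Lib.MP_257afc_co.LD.H31.Poly
import Pool.Agent.Lib.MP_257afc_co.Final

/-!
From hulls of finite sets to vertex-edge systems, and back for simple faces.
-/

set_option autoImplicit false

namespace Pool.Agent.Lib.MP_257afc_co.LD

open Finset Module

namespace GSys

variable {E : Type*} [AddCommGroup E] [Module ℝ E] (P : GSys E)

/-- A face all of whose vertices are simple is a simple polytope. -/
noncomputable def toSys [DecidableEq E] {K : ℕ} {A : Finset E} (hA : A ∈ P.faces K)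
    (hs : ∀ v ∈ A, (P.N v ∩ A).card = K) : Sys E K where
  V := A
  N v := P.N v ∩ A
  sub v _ := Finset.inter_subset_right
  card := hs
  li := by
    intro v hv
    have hF := (P.mem_faces.1 hA).1
    rw [linearIndependent_iff_card_eq_finrank_span, Fintype.card_coe, hs v hv]
    have h1 := hF.dm_eq hv
    rw [(P.mem_faces.1 hA).2.2] at h1
    rw [h1]
    unfold rk sp
    rw [Set.finrank]
    have h3 : Set.range (fun w : (P.N v ∩ A : Finset E) => (w : E) - v) =
        dir v '' ((P.N v ∩ A : Finset E) : Set E) := by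
      ext x
      constructor
      · rintro ⟨i, rfl⟩
        exact ⟨i, i.2, rfl⟩
      · rintro ⟨i, hi, rfl⟩
        exact ⟨⟨i, hi⟩, rfl⟩
    rw [h3]
  cone := by
    intro v hv x hx
    have hF := (P.mem_faces.1 hA).1
    obtain ⟨h1, h2⟩ := hF.local hv
    rw [← h2] at hx
    exact (P.local_face (hF.sub hv) h1).2.2.2 x hx
  symm := by
    intro v hv w hw
    have hF := (P.mem_faces.1 hA).1
    rw [Finset.mem_inter] at hw ⊢
    exact ⟨P.symm v (hF.sub hv) w hw.1, hv⟩

end GSys

variable {E : Type*} [NormedAddCommGroup E] [NormedSpace ℝ E]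

/-- An exposed face of an exposed face of a polytope is an exposed face. -/
theorem exposed_trans {V A : Finset E} (hAV : A ⊆ V) (l : E →L[ℝ] ℝ) (m : ℝ)
    (h1 : ∀ z ∈ A, l z = m) (h2 : ∀ z ∈ V, z ∉ A → l z < m) {F : Set E} (hFne : F.Nonempty)
    (hF : IsExposed ℝ (convexHull ℝ (A : Set E)) F) :
    IsExposed ℝ (convexHull ℝ (V : Set E)) F := by
  classical
  intro _
  obtain ⟨g, hg⟩ := hF hFne
  have hA' : ∀ x ∈ convexHull ℝ (A : Set E), l x = m := by
    intro x hx
    have hconv : Convex ℝ {x : E | l x = m} := by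
      intro a ha b hb s t _ _ hst
      simp only [Set.mem_ofPred_eq] at ha hb ⊢
      rw [map_add, map_smul, map_smul, ha, hb, ← add_smul, hst, one_smul]
    exact convexHull_min (fun z hz => h1 z (by exact_mod_cast hz)) hconv hx
  obtain ⟨x0, hx0⟩ := hFne
  have hx0' : x0 ∈ convexHull ℝ (A : Set E) ∧ ∀ y ∈ convexHull ℝ (A : Set E), g y ≤ g x0 := by
    rw [hg] at hx0
    exact hx0
  set gm : ℝ := g x0 with hgm
  obtain ⟨c, hc, hc2⟩ := exists_big (V \ A) (fun z => m - l z) (fun z => g z - gm) (fun z hz => by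
    rw [Finset.mem_sdiff] at hz
    exact sub_pos.2 (h2 z hz.1 hz.2))
  have hVA : ∀ z ∈ V, z ∉ A → c * l z + g z < c * m + gm := by
    intro z hz hzA
    have := hc2 z (Finset.mem_sdiff.2 ⟨hz, hzA⟩)
    nlinarith
  have hV : ∀ z ∈ V, c * l z + g z ≤ c * m + gm := by
    intro z hz
    by_cases hzA : z ∈ A
    · have := hx0'.2 z (subset_convexHull ℝ _ (by exact_mod_cast hzA))
      rw [h1 z hzA]
      linarith
    · exact (hVA z hz hzA).le
  refine ⟨c • l + g, ?_⟩
  ext x
  simp only [Set.mem_ofPred_eq, _root_.add_apply, _root_.smul_apply, smul_eq_mul]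
  have hle : ∀ y ∈ convexHull ℝ (V : Set E), c * l y + g y ≤ c * m + gm := by
    intro y hy
    have hconv : Convex ℝ {y : E | (c • l + g) y ≤ c * m + gm} :=
      convex_halfSpace_le (c • l + g).toLinearMap.isLinear _
    have h3 := convexHull_min (t := {y : E | (c • l + g) y ≤ c * m + gm}) (fun z hz => by
      simp only [Set.mem_ofPred_eq, _root_.add_apply, _root_.smul_apply, smul_eq_mul]
      exact hV z (by exact_mod_cast hz)) hconv hy
    simpa only [Set.mem_ofPred_eq, _root_.add_apply, _root_.smul_apply, smul_eq_mul] using h3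
  have hsub : convexHull ℝ (A : Set E) ⊆ convexHull ℝ (V : Set E) :=
    convexHull_mono (by exact_mod_cast hAV)
  constructor
  · intro hx
    rw [hg] at hx
    refine ⟨hsub hx.1, fun y hy => ?_⟩
    have h3 := hle y hy
    have h4 := hx.2 x0 hx0'.1
    rw [hA' x hx.1]
    linarith
  · rintro ⟨hx, hmax⟩
    have h3 := hmax x0 (hsub hx0'.1)
    rw [hA' x0 hx0'.1] at h3
    rw [Finset.mem_convexHull'] at hx
    obtain ⟨w, hw0, hw1, hwx⟩ := hx
    have e1 : ∑ y ∈ V, w y * (c * m + gm - (c * l y + g y)) = c * m + gm - (c * l x + g x) := by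
      have e2 : c * l x + g x = ∑ y ∈ V, w y * (c * l y + g y) := by
        rw [← hwx, map_sum, map_sum, Finset.mul_sum, ← Finset.sum_add_distrib]
        refine Finset.sum_congr rfl fun y _ => ?_
        rw [map_smul, map_smul, smul_eq_mul, smul_eq_mul]
        ring
      rw [e2]
      simp only [mul_sub, Finset.sum_sub_distrib]
      rw [← Finset.sum_mul, hw1, one_mul]
    have hnn : ∀ y ∈ V, 0 ≤ w y * (c * m + gm - (c * l y + g y)) := fun y hy =>
      mul_nonneg (hw0 y hy) (sub_nonneg.2 (hV y hy))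
    have hz : ∑ y ∈ V, w y * (c * m + gm - (c * l y + g y)) = 0 :=
      le_antisymm (by rw [e1]; linarith) (Finset.sum_nonneg hnn)
    have hz2 := (Finset.sum_eq_zero_iff_of_nonneg hnn).1 hz
    have hw2 : ∀ y ∈ V, y ∉ A → w y = 0 := by
      intro y hy hyA
      rcases mul_eq_zero.1 (hz2 y hy) with h | h
      · exact h
      · exact absurd h (sub_pos.2 (hVA y hy hyA)).ne'
    have hxA : x ∈ convexHull ℝ (A : Set E) := by
      rw [Finset.mem_convexHull']
      refine ⟨w, fun y hy => hw0 y (hAV hy), ?_, ?_⟩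
      · rw [← hw1]
        exact Finset.sum_subset hAV fun y hy hyA => hw2 y hy hyA
      · rw [← hwx]
        exact Finset.sum_subset hAV fun y hy hyA => by rw [hw2 y hy hyA, zero_smul]
    rw [hg]
    refine ⟨hxA, fun y hy => ?_⟩
    have h4 := hx0'.2 y hy
    rw [hA' x hxA] at h3
    linarith

/-- The neighbours of `v` among the extreme points of `Q`. -/
def nbrs (Q : Set E) (v : E) : Set E :=
  {w | w ∈ Q.extremePoints ℝ ∧ w ≠ v ∧ IsExposed ℝ Q (segment ℝ v w)}

/-- The system of a polytope given by its vertices. -/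
theorem exists_gsys [DecidableEq E] (V : Finset E)
    (hext : (V : Set E) = (convexHull ℝ (V : Set E)).extremePoints ℝ) :
    ∃ P : GSys E, P.V = V ∧ ∀ v ∈ V, (P.N v : Set E) = nbrs (convexHull ℝ (V : Set E)) v := by
  classical
  have hext' : ∀ z ∈ V, z ∈ (convexHull ℝ (V : Set E)).extremePoints ℝ := fun z hz => by
    rw [← hext]; exact_mod_cast hz
  set N : E → Finset E := fun v =>
    V.filter fun w => w ≠ v ∧ IsExposed ℝ (convexHull ℝ (V : Set E)) (segment ℝ v w) with hN
  have hVP : ∀ u ∈ V, u ∈ convexHull ℝ (V : Set E) := fun u hu =>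
    subset_convexHull ℝ _ (by exact_mod_cast hu)
  refine ⟨⟨V, N, fun v _ => Finset.filter_subset _ _, ?_, ?_, ?_, ?_, ?_⟩, rfl, ?_⟩
  · intro v hv x hx
    obtain ⟨c, hc0, hc1, hc2⟩ := cone_vertex hext' hv hx
    refine ⟨c, fun w _ => hc0 w, ?_⟩
    rw [hc2]
    refine (Finset.sum_subset (Finset.filter_subset _ _) fun w hw hwN => ?_).symm
    have : c w = 0 := by
      by_contra hne
      exact hwN (Finset.mem_filter.2 (hc1 w hne))
    rw [this, zero_smul]
  · intro v hv
    obtain ⟨f, hf⟩ := exists_sep (notMem_hull_erase (hext' v hv))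
    refine ⟨f.toLinearMap, fun x hx hxv => ?_⟩
    rw [map_sub, sub_pos]
    exact hf x (Finset.mem_erase.2 ⟨hxv, hx⟩)
  · intro v hv w hw
    obtain ⟨hwV, hwv, hexp⟩ := Finset.mem_filter.1 hw
    obtain ⟨l, hl⟩ := hexp ⟨v, left_mem_segment ℝ v w⟩
    have hvm : v ∈ {x | x ∈ convexHull ℝ (V : Set E) ∧ ∀ y ∈ convexHull ℝ (V : Set E), l y ≤ l x} :=
      hl ▸ left_mem_segment ℝ v w
    have hwm : w ∈ {x | x ∈ convexHull ℝ (V : Set E) ∧ ∀ y ∈ convexHull ℝ (V : Set E), l y ≤ l x} :=
      hl ▸ right_mem_segment ℝ v w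
    simp only [Set.mem_ofPred_eq] at hvm hwm
    refine ⟨-l.toLinearMap, fun x hx => ?_, ?_, fun x hx h0 => ?_⟩
    · have := hvm.2 x (hVP x hx)
      simp only [LinearMap.neg_apply, map_sub, ContinuousLinearMap.coe_coe]
      linarith
    · have h1 := hvm.2 w (hVP w hwV)
      have h2 := hwm.2 v (hVP v hv)
      simp only [LinearMap.neg_apply, map_sub, ContinuousLinearMap.coe_coe]
      linarith
    · simp only [LinearMap.neg_apply, map_sub, ContinuousLinearMap.coe_coe] at h0
      have hxs : x ∈ segment ℝ v w := by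
        rw [hl]
        refine ⟨hVP x hx, fun y hy => ?_⟩
        have := hvm.2 y hy
        linarith
      rcases (mem_extremePoints_iff_forall_segment.1 (hext' x hx)).2 v (hVP v hv) w
        (hVP w hwV) hxs with h | h
      · exact Or.inl h.symm
      · exact Or.inr h.symm
  · intro v hv w hw
    have h := Finset.mem_filter.1 hw
    exact Finset.mem_filter.2 ⟨hv, h.2.1.symm, by rw [segment_symm]; exact h.2.2⟩
  · intro v _ h
    exact (Finset.mem_filter.1 h).2.1 rfl
  · intro v hv
    ext w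
    change w ∈ ((V.filter fun w => w ≠ v ∧ IsExposed ℝ (convexHull ℝ (V : Set E))
      (segment ℝ v w) : Finset E) : Set E) ↔ _
    rw [Finset.coe_filter]
    unfold nbrs
    simp only [Set.mem_ofPred_eq]
    rw [← hext]
    exact Iff.rfl

/-- At every vertex the edge directions span. -/
theorem rank_ge [FiniteDimensional ℝ E] (P : GSys E)
    (hspan : affineSpan ℝ (P.V : Set E) = ⊤) {v : E} (hv : v ∈ P.V) :
    finrank ℝ E ≤ rk (dir v) (P.N v) := by
  have h1 : vectorSpan ℝ (P.V : Set E) = ⊤ := by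
    rw [← direction_affineSpan, hspan, AffineSubspace.direction_top]
  rw [GSys.vectorSpan_eq hv] at h1
  have h2 : sp (dir v) P.V ≤ sp (dir v) (P.N v) := by
    refine sp_le fun x hx => ?_
    obtain ⟨c, -, hc⟩ := P.cone v hv x hx
    change x - v ∈ _
    rw [hc]
    exact Submodule.sum_mem _ fun w hw => Submodule.smul_mem _ _ (mem_sp (a := dir v) hw)
  rw [h1] at h2
  unfold rk
  rw [top_le_iff.1 h2, finrank_top]

end Pool.Agent.Lib.MP_257afc_co.LD
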