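import Pool.Agent.Lib.MP_257afc_co.LD.H31.Conf

/-!
Vertex-edge systems of arbitrary polytopes, their faces, and two counts: there are many faces of
dimension `K`, and the non-simple ones are spanned by few neighbours.
-/

set_option autoImplicit false

namespace Pool.Agent.Lib.MP_257afc_co.LD

open Finset Module

/-- The vertices and edges of a polytope. -/
structure GSys (E : Type*) [AddCommGroup E] [Module ℝ E] where
  /-- the vertices -/
  V : Finset E
  /-- the neighbours of a vertex -/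
  N : E → Finset E
  sub : ∀ v ∈ V, N v ⊆ V
  cone : ∀ v ∈ V, ∀ x ∈ V, ∃ c : E → ℝ, (∀ w ∈ N v, 0 ≤ c w) ∧
    x - v = ∑ w ∈ N v, c w • (w - v)
  point : ∀ v ∈ V, ∃ l : E →ₗ[ℝ] ℝ, ∀ x ∈ V, x ≠ v → 0 < l (x - v)
  edge : ∀ v ∈ V, ∀ w ∈ N v, ∃ l : E →ₗ[ℝ] ℝ, (∀ x ∈ V, 0 ≤ l (x - v)) ∧ l (w - v) = 0 ∧
    ∀ x ∈ V, l (x - v) = 0 → x = v ∨ x = w
  symm : ∀ v ∈ V, ∀ w ∈ N v, v ∈ N w
  self : ∀ v ∈ V, v ∉ N v

/-- The directions at `v`. -/
def dir {E : Type*} [AddCommGroup E] (v : E) : E → E := fun w => w - v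

namespace GSys

variable {E : Type*} [AddCommGroup E] [Module ℝ E] (P : GSys E)

/-- Faces, as sets of vertices. -/
def Fc (A : Finset E) : Prop :=
  ∃ (l : E →ₗ[ℝ] ℝ) (m : ℝ), (∀ x ∈ P.V, m ≤ l x) ∧ ∀ x, x ∈ A ↔ x ∈ P.V ∧ l x = m

/-- The dimension of a set of vertices. -/
noncomputable def dm (A : Finset E) : ℕ := finrank ℝ (vectorSpan ℝ (A : Set E))

theorem Fc.sub {P : GSys E} {A : Finset E} (h : P.Fc A) : A ⊆ P.V := by
  obtain ⟨l, m, -, h2⟩ := h
  exact fun x hx => ((h2 x).1 hx).1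

theorem hpt {v : E} (hv : v ∈ P.V) : ∃ l : E →ₗ[ℝ] ℝ, ∀ w ∈ P.N v, 0 < l (dir v w) := by
  obtain ⟨l, hl⟩ := P.point v hv
  exact ⟨l, fun w hw => hl w (P.sub v hv hw) fun h => P.self v hv (h ▸ hw)⟩

theorem hext {v : E} (hv : v ∈ P.V) : ∀ w ∈ P.N v, ∃ l : E →ₗ[ℝ] ℝ,
    (∀ j ∈ P.N v, 0 ≤ l (dir v j)) ∧ l (dir v w) = 0 ∧
      ∀ j ∈ P.N v, l (dir v j) = 0 → j = w := by
  intro w hw
  obtain ⟨l, h1, h2, h3⟩ := P.edge v hv w hw
  refine ⟨l, fun j hj => h1 j (P.sub v hv hj), h2, fun j hj h0 => ?_⟩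
  rcases h3 j (P.sub v hv hj) h0 with h | h
  · exact absurd (h ▸ hj) (P.self v hv)
  · exact h

/-- A functional which is nonnegative on the edge directions at `v` is minimal at `v`. -/
theorem nonneg_of {v : E} (hv : v ∈ P.V) {l : E →ₗ[ℝ] ℝ} (hl : ∀ w ∈ P.N v, 0 ≤ l (dir v w))
    {x : E} (hx : x ∈ P.V) : 0 ≤ l (x - v) := by
  obtain ⟨c, hc, hxc⟩ := P.cone v hv x hx
  rw [hxc, map_sum]
  refine Finset.sum_nonneg fun w hw => ?_
  rw [map_smul, smul_eq_mul]
  exact mul_nonneg (hc w hw) (hl w hw)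

/-- The cone representation inside the zero set of a supporting functional. -/
theorem cone_zero {v : E} (hv : v ∈ P.V) {l : E →ₗ[ℝ] ℝ} (hl : ∀ w ∈ P.N v, 0 ≤ l (dir v w))
    {T : Finset E} (hT : ∀ w, w ∈ T ↔ w ∈ P.N v ∧ l (dir v w) = 0)
    {x : E} (hx : x ∈ P.V) (h0 : l (x - v) = 0) :
    ∃ c : E → ℝ, (∀ w ∈ T, 0 ≤ c w) ∧ x - v = ∑ w ∈ T, c w • (w - v) := by
  classical
  obtain ⟨c, hc, hxc⟩ := P.cone v hv x hx
  have hTN : T ⊆ P.N v := fun w hw => ((hT w).1 hw).1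
  refine ⟨c, fun w hw => hc w (hTN hw), ?_⟩
  rw [hxc]
  symm
  apply Finset.sum_subset hTN
  intro w hw hwT
  have h1 : ∑ w ∈ P.N v, c w * l (dir v w) = 0 := by
    rw [← h0, hxc, map_sum]
    exact Finset.sum_congr rfl fun w _ => by rw [map_smul, smul_eq_mul]; rfl
  have h2 := (Finset.sum_eq_zero_iff_of_nonneg
    (fun w hw => mul_nonneg (hc w hw) (hl w hw))).1 h1 w hw
  rcases mul_eq_zero.1 h2 with h | h
  · rw [h, zero_smul]
  · exact absurd ((hT w).2 ⟨hw, h⟩) hwT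

open Classical in
/-- The face at `v` spanned by the neighbours in `T`. -/
noncomputable def fa (v : E) (T : Finset E) : Finset E :=
  P.V.filter fun x => x - v ∈ sp (dir v) T

theorem mem_fa {v : E} {T : Finset E} {x : E} :
    x ∈ P.fa v T ↔ x ∈ P.V ∧ x - v ∈ sp (dir v) T := by
  classical
  unfold fa
  rw [Finset.mem_filter]

theorem self_mem_fa {v : E} (hv : v ∈ P.V) (T : Finset E) : v ∈ P.fa v T :=
  P.mem_fa.2 ⟨hv, by rw [sub_self]; exact Submodule.zero_mem _⟩

theorem vectorSpan_eq {v : E} {A : Finset E} (hv : v ∈ A) :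
    vectorSpan ℝ (A : Set E) = sp (dir v) A := by
  rw [vectorSpan_eq_span_vsub_set_right ℝ (show v ∈ (A : Set E) by exact_mod_cast hv)]
  rfl

theorem sp_eq_of {v : E} {A T : Finset E} (hTA : T ⊆ A) (h : ∀ x ∈ A, x - v ∈ sp (dir v) T) :
    sp (dir v) A = sp (dir v) T :=
  le_antisymm (sp_le h) (sp_mono hTA)

/-- Local faces give faces. -/
theorem local_face [DecidableEq E] {v : E} (hv : v ∈ P.V) {T : Finset E}
    (hT : IsF (dir v) (P.N v) T) :
    P.Fc (P.fa v T) ∧ P.N v ∩ P.fa v T = T ∧ dm (P.fa v T) = rk (dir v) T ∧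
      ∀ x ∈ P.fa v T, ∃ c : E → ℝ, (∀ w ∈ T, 0 ≤ c w) ∧ x - v = ∑ w ∈ T, c w • (w - v) := by
  obtain ⟨l, h1, h2⟩ := hT
  have hTN : T ⊆ P.N v := fun w hw => ((h2 w).1 hw).1
  have hz : ∀ x, x ∈ P.fa v T ↔ x ∈ P.V ∧ l x = l v := by
    intro x
    rw [P.mem_fa]
    refine and_congr_right fun hx => ?_
    constructor
    · intro h
      have h3 := zero_on_sp (fun w hw => ((h2 w).1 hw).2) h
      rwa [map_sub, sub_eq_zero] at h3
    · intro h
      have h3 : l (x - v) = 0 := by rw [map_sub, h, sub_self]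
      obtain ⟨c, -, hc⟩ := P.cone_zero hv h1 h2 hx h3
      rw [hc]
      exact Submodule.sum_mem _ fun w hw => Submodule.smul_mem _ _ (mem_sp (a := dir v) hw)
  have hTfa : T ⊆ P.fa v T := fun w hw => P.mem_fa.2 ⟨P.sub v hv (hTN hw), mem_sp (a := dir v) hw⟩
  refine ⟨⟨l, l v, fun x hx => ?_, hz⟩, ?_, ?_, fun x hx => ?_⟩
  · have := P.nonneg_of hv h1 hx
    rw [map_sub, sub_nonneg] at this
    exact this
  · ext w
    rw [Finset.mem_inter]
    constructor
    · rintro ⟨hw, hw2⟩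
      refine (h2 w).2 ⟨hw, ?_⟩
      change l (w - v) = 0
      rw [map_sub, ((hz w).1 hw2).2, sub_self]
    · intro hw
      exact ⟨hTN hw, hTfa hw⟩
  · unfold dm rk
    rw [vectorSpan_eq (P.self_mem_fa hv T), sp_eq_of hTfa fun x hx => (P.mem_fa.1 hx).2]
  · have h3 := (hz x).1 hx
    exact P.cone_zero hv h1 h2 h3.1 (by rw [map_sub, h3.2, sub_self])

/-- Faces are local faces at each of their vertices. -/
theorem Fc.local [DecidableEq E] {P : GSys E} {A : Finset E} (hA : P.Fc A) {v : E} (hv : v ∈ A) :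
    IsF (dir v) (P.N v) (P.N v ∩ A) ∧ P.fa v (P.N v ∩ A) = A := by
  have hAV := hA.sub
  have hvV := hAV hv
  obtain ⟨l, m, h1, h2⟩ := hA
  have hlv : l v = m := ((h2 v).1 hv).2
  have hl : ∀ w ∈ P.N v, 0 ≤ l (dir v w) := by
    intro w hw
    change 0 ≤ l (w - v)
    rw [map_sub, hlv, sub_nonneg]
    exact h1 w (P.sub v hvV hw)
  have hT : ∀ w, w ∈ P.N v ∩ A ↔ w ∈ P.N v ∧ l (dir v w) = 0 := by
    intro w
    rw [Finset.mem_inter]
    refine and_congr_right fun hw => ?_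
    change w ∈ A ↔ l (w - v) = 0
    rw [map_sub, hlv, sub_eq_zero, h2 w]
    exact ⟨fun h => h.2, fun h => ⟨P.sub v hvV hw, h⟩⟩
  refine ⟨⟨l, hl, hT⟩, ?_⟩
  ext x
  rw [P.mem_fa]
  constructor
  · rintro ⟨hx, hxs⟩
    have h3 := zero_on_sp (fun w hw => ((hT w).1 hw).2) hxs
    rw [map_sub, hlv, sub_eq_zero] at h3
    exact (h2 x).2 ⟨hx, h3⟩
  · intro hx
    refine ⟨hAV hx, ?_⟩
    have h3 : l (x - v) = 0 := by rw [map_sub, hlv, ((h2 x).1 hx).2, sub_self]
    obtain ⟨c, -, hc⟩ := P.cone_zero hvV hl hT (hAV hx) h3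
    rw [hc]
    exact Submodule.sum_mem _ fun w hw => Submodule.smul_mem _ _ (mem_sp (a := dir v) hw)

theorem Fc.dm_eq [DecidableEq E] {P : GSys E} {A : Finset E} (hA : P.Fc A) {v : E} (hv : v ∈ A) :
    dm A = rk (dir v) (P.N v ∩ A) := by
  obtain ⟨h1, h2⟩ := hA.local hv
  have h3 := (P.local_face (hA.sub hv) h1).2.2.1
  rwa [h2] at h3

open Classical in
/-- The nonempty faces of dimension `K`. -/
noncomputable def faces (K : ℕ) : Finset (Finset E) :=
  P.V.powerset.filter fun A => P.Fc A ∧ A.Nonempty ∧ dm A = K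

theorem mem_faces {K : ℕ} {A : Finset E} : A ∈ P.faces K ↔ P.Fc A ∧ A.Nonempty ∧ dm A = K := by
  classical
  unfold faces
  rw [Finset.mem_filter, Finset.mem_powerset]
  exact ⟨fun h => h.2, fun h => ⟨h.1.sub, h⟩⟩

theorem exists_generic : ∃ φ : E →ₗ[ℝ] ℝ, ∀ x ∈ P.V, ∀ y ∈ P.V, φ x = φ y → x = y := by
  obtain ⟨f, hf⟩ := Module.exists_dual_forall_apply_ne_zero (K := ℝ)
    (fun p : {p : P.V × P.V // p.1 ≠ p.2} => (p.1.1 : E) - (p.1.2 : E))
    (fun p => by
      intro h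
      exact p.2 (Subtype.ext (sub_eq_zero.1 h)))
  refine ⟨f, fun x hx y hy hxy => ?_⟩
  by_contra hne
  refine hf ⟨(⟨x, hx⟩, ⟨y, hy⟩), fun h => hne (congrArg Subtype.val h)⟩ ?_
  rw [map_sub, sub_eq_zero]
  exact hxy

open Classical in
/-- The faces of dimension `K` at which `φ` is minimal at `v`. -/
noncomputable def minAt (φ : E →ₗ[ℝ] ℝ) (K : ℕ) (v : E) : Finset (Finset E) :=
  (P.faces K).filter fun A => v ∈ A ∧ ∀ x ∈ A, φ v ≤ φ x

theorem sum_minAt (φ : E →ₗ[ℝ] ℝ) (hφ : ∀ x ∈ P.V, ∀ y ∈ P.V, φ x = φ y → x = y) (K : ℕ) :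
    ∑ v ∈ P.V, (P.minAt φ K v).card ≤ (P.faces K).card := by
  classical
  rw [← Finset.card_biUnion]
  · refine Finset.card_le_card fun A hA => ?_
    obtain ⟨v, -, hA⟩ := Finset.mem_biUnion.1 hA
    exact Finset.filter_subset _ _ hA
  · intro v hv w hw hvw
    rw [Function.onFun, Finset.disjoint_left]
    intro A h1 h2
    unfold minAt at h1 h2
    rw [Finset.mem_filter] at h1 h2
    exact hvw (hφ v hv w hw (le_antisymm (h1.2.2 w h2.2.1) (h2.2.2 v h1.2.1)))

/-- A local face on the positive side of `φ` contributes its subfaces to `minAt`. -/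
theorem choose_le_minAt [FiniteDimensional ℝ E] (φ : E →ₗ[ℝ] ℝ) (K : ℕ) {v : E} (hv : v ∈ P.V)
    {T : Finset E} (hT : IsF (dir v) (P.N v) T) (hpos : ∀ w ∈ T, 0 < φ (dir v w)) :
    (rk (dir v) T).choose K ≤ (P.minAt φ K v).card := by
  classical
  -- the empty face
  have hE : IsF (dir v) T (∅ : Finset E) := by
    obtain ⟨l, hl⟩ := P.hpt hv
    have hTN := hT.sub
    refine ⟨l, fun w hw => (hl w (hTN hw)).le, fun w => ?_⟩
    constructor
    · intro h
      exact absurd h (Finset.notMem_empty w)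
    · rintro ⟨h1, h2⟩
      exact absurd h2 (hl w (hTN h1)).ne'
  have hr0 : rk (dir v) (∅ : Finset E) = 0 := by
    unfold rk sp
    simp
  have h1 := count (rk (dir v) T) (dir v) T ∅ K hE (by rw [hr0, zero_add])
  refine h1.trans ?_
  apply Finset.card_le_card_of_injOn (fun U => P.fa v U)
  · intro U hU
    have hU' : U ∈ T.powerset.filter fun U => IsF (dir v) T U ∧ ∅ ⊆ U ∧
        rk (dir v) U = rk (dir v) (∅ : Finset E) + K := by exact_mod_cast hU
    rw [Finset.mem_filter, Finset.mem_powerset] at hU'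
    obtain ⟨hUT, hUF, -, hUr⟩ := hU'
    obtain ⟨a1, a2, a3, a4⟩ := P.local_face hv (hT.trans hUF)
    have hmem : P.fa v U ∈ P.minAt φ K v := by
      unfold minAt
      rw [Finset.mem_filter, P.mem_faces]
      refine ⟨⟨a1, ⟨v, P.self_mem_fa hv U⟩, by rw [a3, hUr, hr0, zero_add]⟩,
        P.self_mem_fa hv U, fun x hx => ?_⟩
      obtain ⟨c, hc, hxc⟩ := a4 x hx
      have h2 : 0 ≤ φ (x - v) := by
        rw [hxc, map_sum]
        refine Finset.sum_nonneg fun w hw => ?_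
        rw [map_smul, smul_eq_mul]
        exact mul_nonneg (hc w hw) (hpos w (hUT hw)).le
      rw [map_sub, sub_nonneg] at h2
      exact h2
    exact_mod_cast hmem
  · intro U hU U' hU' heq
    have hU1 : U ∈ T.powerset.filter fun U => IsF (dir v) T U ∧ ∅ ⊆ U ∧
        rk (dir v) U = rk (dir v) (∅ : Finset E) + K := by exact_mod_cast hU
    have hU2 : U' ∈ T.powerset.filter fun U => IsF (dir v) T U ∧ ∅ ⊆ U ∧
        rk (dir v) U = rk (dir v) (∅ : Finset E) + K := by exact_mod_cast hU'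
    rw [Finset.mem_filter] at hU1 hU2
    dsimp only at heq
    have e1 := (P.local_face hv (hT.trans hU1.2.1)).2.1
    have e2 := (P.local_face hv (hT.trans hU2.2.1)).2.1
    rw [← e1, heq, e2]

/-- Every polytope of dimension `d` has many faces of dimension `K`. -/
theorem many_faces [FiniteDimensional ℝ E] {d : ℕ} (hd : ∀ v ∈ P.V, d ≤ rk (dir v) (P.N v))
    (K : ℕ) : P.V.card * ((d + 1) / 2).choose K ≤ 2 * (P.faces K).card := by
  classical
  obtain ⟨φ, hφ⟩ := P.exists_generic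
  have hφ' : ∀ x ∈ P.V, ∀ y ∈ P.V, (-φ) x = (-φ) y → x = y := by
    intro x hx y hy h
    refine hφ x hx y hy ?_
    simpa using h
  have h1 := P.sum_minAt φ hφ K
  have h2 := P.sum_minAt (-φ) hφ' K
  have h3 : ∀ v ∈ P.V, ((d + 1) / 2).choose K ≤
      (P.minAt φ K v).card + (P.minAt (-φ) K v).card := by
    intro v hv
    obtain ⟨T, hT, hr, hs⟩ := two_sided (P.hpt hv) φ (fun w hw h0 => by
      change φ (w - v) = 0 at h0
      rw [map_sub, sub_eq_zero] at h0
      have := hφ w (P.sub v hv hw) v hv h0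
      exact P.self v hv (this ▸ hw))
    have h4 : (d + 1) / 2 ≤ rk (dir v) T := by
      have := hd v hv
      omega
    have h5 := Nat.choose_le_choose K h4
    rcases hs with hs | hs
    · have := P.choose_le_minAt φ K hv hT hs
      omega
    · have := P.choose_le_minAt (-φ) K hv hT (fun w hw => by
        have := hs w hw
        simpa using this)
      omega
  have h4 : P.V.card * ((d + 1) / 2).choose K ≤
      ∑ v ∈ P.V, ((P.minAt φ K v).card + (P.minAt (-φ) K v).card) := by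
    rw [← smul_eq_mul, ← Finset.sum_const]
    exact Finset.sum_le_sum h3
  rw [Finset.sum_add_distrib] at h4
  omega

open Classical in
/-- The smallest face which contains `v` and `S`. -/
noncomputable def cl (v : E) (S : Finset E) : Finset E :=
  P.V.filter fun x => ∀ l : E →ₗ[ℝ] ℝ, (∀ w ∈ P.N v, 0 ≤ l (dir v w)) →
    (∀ w ∈ S, l (dir v w) = 0) → l (x - v) = 0

/-- The non-simple faces are few. -/
theorem few_bad [FiniteDimensional ℝ E] [DecidableEq E] (K : ℕ) :
    ((P.faces K).filter fun A => ∃ v ∈ A, (P.N v ∩ A).card ≠ K).card ≤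
      ∑ v ∈ P.V, ∑ i ∈ Finset.range K, (P.N v).card.choose i := by
  classical
  have h1 : ((P.faces K).filter fun A => ∃ v ∈ A, (P.N v ∩ A).card ≠ K) ⊆
      P.V.biUnion fun v => ((Finset.range K).biUnion fun i =>
        (powersetCard i (P.N v)).image fun S => P.cl v S) := by
    intro A hA
    rw [Finset.mem_filter, P.mem_faces] at hA
    obtain ⟨⟨hF, -, hdm⟩, v, hvA, hne⟩ := hA
    have hvV := hF.sub hvA
    have hloc := (hF.local hvA).1
    have hfa := (hF.local hvA).2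
    have hdm2 := hF.dm_eq hvA
    have hrk : rk (dir v) (P.N v ∩ A) ≠ (P.N v ∩ A).card := by
      rw [← hdm2, hdm]
      exact hne.symm
    obtain ⟨S, hS1, hS2, hS3⟩ := small Finset.inter_subset_left (P.hpt hvV) (P.hext hvV) hrk
    rw [← hdm2, hdm] at hS2
    refine Finset.mem_biUnion.2 ⟨v, hvV, Finset.mem_biUnion.2 ⟨S.card, Finset.mem_range.2 hS2,
      Finset.mem_image.2 ⟨S, ?_, ?_⟩⟩⟩
    · rw [Finset.mem_powersetCard]
      exact ⟨hS1.trans Finset.inter_subset_left, rfl⟩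
    · ext x
      unfold cl
      rw [Finset.mem_filter]
      constructor
      · rintro ⟨hx, h⟩
        obtain ⟨l, m, h1, h2⟩ := hF
        have hlv : l v = m := ((h2 v).1 hvA).2
        have h3 := h l (fun w hw => by
          change 0 ≤ l (w - v)
          rw [map_sub, hlv, sub_nonneg]
          exact h1 w (P.sub v hvV hw)) (fun w hw => by
          change l (w - v) = 0
          rw [map_sub, hlv, ((h2 w).1 (Finset.mem_inter.1 (hS1 hw)).2).2, sub_self])
        rw [map_sub, hlv, sub_eq_zero] at h3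
        exact (h2 x).2 ⟨hx, h3⟩
      · intro hx
        refine ⟨hF.sub hx, fun l hl1 hl2 => ?_⟩
        have h3 := hS3 l hl1 hl2
        rw [← hfa, P.mem_fa] at hx
        exact zero_on_sp h3 hx.2
  refine (Finset.card_le_card h1).trans ?_
  refine Finset.card_biUnion_le.trans (Finset.sum_le_sum fun v _ => ?_)
  refine Finset.card_biUnion_le.trans (Finset.sum_le_sum fun i _ => ?_)
  exact Finset.card_image_le.trans (Finset.card_powersetCard _ _).le

/-- Existence of a simple face. -/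
theorem exists_simple [FiniteDimensional ℝ E] [DecidableEq E] {d K : ℕ}
    (hd : ∀ v ∈ P.V, d ≤ rk (dir v) (P.N v))
    (hK : 2 * ∑ v ∈ P.V, ∑ i ∈ Finset.range K, (P.N v).card.choose i <
      P.V.card * ((d + 1) / 2).choose K) :
    ∃ A ∈ P.faces K, ∀ v ∈ A, (P.N v ∩ A).card = K := by
  classical
  by_contra hcon
  push Not at hcon
  have h1 := P.many_faces hd K
  have h2 := P.few_bad K
  have h3 : (P.faces K).filter (fun A => ∃ v ∈ A, (P.N v ∩ A).card ≠ K) = P.faces K := by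
    apply Finset.filter_true_of_mem
    intro A hA
    exact hcon A hA
  rw [h3] at h2
  omega

end GSys

end Pool.Agent.Lib.MP_257afc_co.LD
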